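import Pool.Agent.MP_856573_co.H74.Spec

/-! The modules are put together. -/

namespace Pool.Agent.MP_856573_co.H74

open Set
open Pool.Agent.MP_31805c_co.H47 (Mac K4 FourCol)
open Pool.Agent.MP_856573_co.H90 (OneBend IsFree m)

variable {V : Type}

theorem free_mono {G H : SimpleGraph V} (hle : G ≤ H) {s : ℕ} {v : Fin s → V} (h : IsFree H v) :
    IsFree G v := by
  refine ⟨h.1, fun x y hx => ?_⟩
  obtain ⟨pos, ⟨b, h1, h2, h3, h4⟩, h5⟩ := h.2 x y hx
  exact ⟨pos, ⟨b, fun u v a => h1 u v (hle a), h2, fun u v w a => h3 u v w (hle a),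
    fun u v u' v' a a' => h4 u v u' v' (hle a) (hle a')⟩, h5⟩

theorem le_m [Fintype V] {G : SimpleGraph V} {s : ℕ} {v : Fin s → V} (h : IsFree G v) :
    s ≤ m G := by
  refine le_csSup ⟨Fintype.card V, fun k ⟨w, hw⟩ => ?_⟩ ⟨v, h⟩
  simpa using Fintype.card_le_of_injective w hw.1

theorem final (tri : StmtTRI) (tb : StmtTB) (sp : StmtSPLIT) (lam : StmtLAM) (y : StmtY)
    (sides : StmtSIDES) (sv : SVall) (root : StmtROOT) (sel1 : StmtSEL1) (sel2 : StmtSEL2)
    (obj : StmtOBJ) (fo : StmtFO) (gor : StmtGOR) (geo : StmtGEO) (draw : StmtDRAW)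
    (pert : StmtPERT) (four : FourCol) [Fintype V] [DecidableEq V] (G : SimpleGraph V)
    (hG : Mac G) (h4 : 4 ≤ Fintype.card V) : 11 * Fintype.card V ≤ 16 * m G := by
  classical
  obtain ⟨H, F, hle, hT⟩ := tri V G Finset.univ hG h4
  obtain ⟨c, hc⟩ := four V _ (tb.mac V H _ F hT)
  have col : ∀ T, T3 H Finset.univ T → ∀ u ∈ T, ∀ v ∈ T, c u = c v → u = v :=
    fun T h u hu v hv e => by_contra fun n => hc u v trivial trivial
      ⟨h.2.1 hu hv n, Finset.mem_univ _, Finset.mem_univ _⟩ e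
  obtain ⟨v0⟩ : Nonempty V := Fintype.card_pos_iff.1 (by omega)
  obtain ⟨T0, h0⟩ : (F.filter fun f => v0 ∈ f).Nonempty :=
    Finset.card_pos.1 (by have := (tb.deg V H _ F hT v0 (Finset.mem_univ _)).1; omega)
  replace h0 := (Finset.mem_filter.1 h0).1
  have t0 := hT.face T0 h0
  have in0 : ∀ v, v ∉ T0 → v ∈ Inn H Finset.univ T0 T0 := fun v hv => by
    simp only [Inn, Finset.mem_filter]
    exact ⟨Finset.mem_univ _, hv, fun ρ a b => absurd a b⟩
  let 𝒮 : Finset (Finset V) := Finset.univ.filter fun T =>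
    T3 H Finset.univ T ∧ (Inn H Finset.univ T0 T).Nonempty
  have mem : ∀ T, T ∈ 𝒮 ↔ T3 H Finset.univ T ∧ (Inn H Finset.univ T0 T).Nonempty := fun T => by
    simp [𝒮]
  have hL : Lam c 𝒮 (Inn H Finset.univ T0) T0 := by
    refine ⟨(mem _).2 ⟨t0, ?_⟩, fun T h => ((mem _).1 h).1.2.card_eq,
      fun T h => col T ((mem _).1 h).1, fun T h => ((mem _).1 h).2, fun T h => ?_, fun T h n => ?_,
      fun T h T' h' => lam.sub V H _ F T0 T T' hT h0 ((mem _).1 h).1 ((mem _).1 h').1,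
      fun T h T' h' => lam.lam V H _ F T0 T T' hT h0 ((mem _).1 h).1 ((mem _).1 h').1,
      fun T h T1 h1 T2 h2 =>
        lam.edge V H _ F T0 T T1 T2 hT h0 ((mem _).1 h).1 ((mem _).1 h1).1 ((mem _).1 h2).1⟩
    · obtain ⟨v, -, hv⟩ := Finset.exists_mem_notMem_of_card_lt_card
        (s := T0) (t := Finset.univ) (by rw [t0.2.card_eq]; exact h4)
      exact ⟨v, in0 v hv⟩
    · refine Finset.disjoint_left.2 fun v hv hv' => ?_
      simp only [Inn, Finset.mem_filter] at hv'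
      exact hv'.2.1 hv
    · by_contra k
      refine n (Finset.eq_of_subset_of_card_le
        (fun v hv => by_contra fun hv' => k ⟨v, hv, in0 v hv'⟩) ?_)
      rw [t0.2.card_eq, ((mem _).1 h).1.2.card_eq]
  obtain ⟨Hd, hD⟩ := sel1 V c 𝒮 _ T0 hL
  obtain ⟨Hb, C, hS⟩ := sel2 V c 𝒮 Hd _ T0 hL hD
  have nd : ∀ T, T3 H Finset.univ T → ¬ T ⊆ Hb := fun T h hs => by
    obtain ⟨a, b, hab⟩ := hS.col
    have := Finset.card_le_card_of_injOn (s := T) (t := {a, b}) c
      (fun v hv => by simpa using hab v (hs hv)) (fun u hu v hv => col T h u hu v hv)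
    have := Finset.card_le_two (a := a) (b := b)
    have := h.2.card_eq
    omega
  have hC : Cfg H Finset.univ F T0 Hb C := by
    refine ⟨hT, h0, nd, fun T h => ⟨((mem _).1 (hS.sub T h).1).1, (hS.sub T h).2⟩,
      fun T h hd => ?_, hS.uni, hS.exc⟩
    by_cases e : T = T0
    · exact Or.inl (e ▸ h0)
    rcases (Inn H Finset.univ T0 T).eq_empty_or_nonempty with k | k
    · exact Or.inl ((sp.face V H _ F T0 T hT h0 h e).2 k)
    · exact Or.inr (hS.hit T ((mem _).2 ⟨h, k⟩) e hd)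
  obtain ⟨q, k, hq⟩ := root sv V H _ F T0 Hb C hC
  obtain ⟨O, _, N, ix, sd, A, tie, hub, Sg, hlay⟩ :=
    obj tb y sides V H F T0 Hb q k hT h0 (fun f h => nd f (hT.face f h)) hq
  obtain ⟨v, hv, hx⟩ := draw fo gor geo V O H Hb N ix sd A tie hub Sg hlay
  have := le_m (free_mono (G := G)
    (fun u w a => hle ⟨a, Finset.mem_univ _, Finset.mem_univ _⟩) (pert V H _ v hv hx))
  have := hS.small
  omega

end Pool.Agent.MP_856573_co.H74
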