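import Pool.Agent.MP_856573_co.H74.Spec

/-! From the affine functions to the positions of the objects. -/

namespace Pool.Agent.MP_856573_co.H74

open Set

namespace GEO

theorem seg {ψ : ℝ × ℝ} (h : ψ.2 ≠ 0) {x : ℝ} {u : ℝ × ℝ}
    (hu : u ∈ segment ℝ (-ψ.1 / ψ.2, -1 / ψ.2) (x, (0 : ℝ))) :
    u = (x, 0) ∨ ∃ α β : ℝ, 0 < α ∧ 0 ≤ β ∧ u.2 = α * (-1 / ψ.2) ∧
      ∀ t, u.1 - t = u.2 * ev ψ t + β * (x - t) := by
  obtain ⟨α, β, h1, h2, h3, rfl⟩ := hu
  obtain rfl : β = 1 - α := by linarith
  rcases h1.eq_or_lt with rfl | h1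
  · left; simp
  · refine Or.inr ⟨α, 1 - α, h1, h2, by simp, fun t => ?_⟩
    simp only [ev, Prod.fst_add, Prod.snd_add, Prod.smul_fst, Prod.smul_snd, smul_eq_mul]
    field_simp
    ring

theorem sg_sq (b : Bool) : sg b * sg b = 1 := by cases b <;> simp [sg]

variable {O : Type} {N : ℕ} {sd : O → Bool} {A : O → Finset ℕ} {tie : O → Option (O × ℕ)}
  {rk L R : O → ℕ} {par : O → Option O} {X : ℕ → ℝ} {ψ : O → ℝ × ℝ}

theorem ext_mem (hF : Fo N sd A rk L R par) {o : O} {a : ℕ} (h : Ext A L R o a) :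
    L o ≤ a ∧ a ≤ R o := by
  have := hF.lr o
  rcases h with h | h | h
  · exact hF.mem o a h
  all_goals omega

theorem slope (hF : Fo N sd A rk L R par) (hX : StrictMono X) (hP : Ps X sd tie L R par ψ) (o : O) :
    sg (sd o) * ((ψ o).2 - ((par o).elim 0 ψ).2) < 0 := by
  have h1 := hP.l o
  have h2 := hP.r o
  have h3 := hX (hF.lr o).1
  simp only [ev] at h1 h2
  by_contra k
  nlinarith [mul_nonneg (not_lt.1 k) (sub_pos.2 h3).le]

theorem neg (hF : Fo N sd A rk L R par) (hX : StrictMono X) (hP : Ps X sd tie L R par ψ) (o : O) :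
    sg (sd o) * (ψ o).2 < 0 := by
  induction h : rk o using Nat.strong_induction_on generalizing o with
  | _ n ih =>
    have h1 := slope hF hX hP o
    cases hz : par o with
    | none => simpa [hz] using h1
    | some z =>
      have h2 := hF.some o z hz
      have h3 := ih _ (h ▸ h2.2.1) z rfl
      rw [h2.1] at h3
      simp only [hz, Option.elim] at h1
      linarith

theorem key (hF : Fo N sd A rk L R par) (hX : StrictMono X) (hP : Ps X sd tie L R par ψ)
    (o o' : O) (hs : sd o' = sd o) (hr : rk o' < rk o) (b : ℕ) (hb : Ext A L R o' b) :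
    (b ≤ L o → ∃ c, b ≤ c ∧ c ≤ L o ∧ 0 < sg (sd o) * (ev (ψ o) (X c) - ev (ψ o') (X c))) ∧
    (R o ≤ b → ∃ c, R o ≤ c ∧ c ≤ b ∧ sg (sd o) * (ev (ψ o) (X c) - ev (ψ o') (X c)) < 0) := by
  induction h : rk o using Nat.strong_induction_on generalizing o o' b with
  | _ n ih =>
    subst h
    cases hz : par o with
    | none => exact absurd ((hF.none o hz).2.2 o' hs) (by omega)
    | some z =>
      obtain ⟨z1, z2, z3, z4, z5⟩ := hF.some o z hz
      have h1 := slope hF hX hP o
      have h2 := hP.l o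
      have h3 := hP.r o
      simp only [hz, Option.elim] at h1 h2 h3
      have dl : ∀ c ≤ L o, 0 < sg (sd o) * (ev (ψ o) (X c) - ev (ψ z) (X c)) := fun c hc => by
        simp only [ev] at h2 ⊢
        nlinarith [mul_nonneg (neg_pos.2 h1).le (sub_nonneg.2 (hX.monotone hc))]
      have dr : ∀ c, R o ≤ c → sg (sd o) * (ev (ψ o) (X c) - ev (ψ z) (X c)) < 0 := fun c hc => by
        simp only [ev] at h3 ⊢
        nlinarith [mul_nonneg (neg_pos.2 h1).le (sub_nonneg.2 (hX.monotone hc))]
      have e3 := ext_mem hF z3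
      have e4 := ext_mem hF z4
      have eb := ext_mem hF hb
      have lr := (hF.lr o).1
      rcases lt_trichotomy (rk o') (rk z) with k | k | k
      · have i := ih _ z2 z o' (hs.trans z1.symm) k b hb rfl
        have g := hF.gap z o' (hs.trans z1.symm) k b hb
        rw [z1] at i
        constructor <;> intro hb'
        · obtain ⟨c, c1, c2, c3⟩ := i.1 (by omega)
          exact ⟨c, c1, by omega, by linarith [dl c (by omega)]⟩
        · obtain ⟨c, c1, c2, c3⟩ := i.2 (by omega)
          exact ⟨c, by omega, c2, by linarith [dr c (by omega)]⟩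
      · obtain rfl := hF.inj k
        exact ⟨fun hb' => ⟨_, hb', le_rfl, h2⟩, fun hb' => ⟨_, le_rfl, hb', h3⟩⟩
      · have g1 := hF.gap o o' hs hr _ (Or.inr (Or.inl rfl))
        have g2 := hF.gap o o' hs hr _ (Or.inr (Or.inr rfl))
        have g3 := z5 o' hs hr
        constructor <;> intro hb'
        · obtain ⟨c, c1, c2, c3⟩ := (ih _ hr o' z (z1.trans hs.symm) k _ z3 rfl).2 (by omega)
          rw [hs] at c3
          exact ⟨c, by omega, c2, by linarith [dl c c2]⟩
        · obtain ⟨c, c1, c2, c3⟩ := (ih _ hr o' z (z1.trans hs.symm) k _ z4 rfl).1 (by omega)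
          rw [hs] at c3
          exact ⟨c, c1, by omega, by linarith [dr c c1]⟩

end GEO

open GEO in
theorem geo : StmtGEO := by
  intro O _ N sd A tie rk L R par X ψ hW hF hX hP
  have hn := neg hF hX hP
  have h0 : ∀ o, (ψ o).2 ≠ 0 := fun o e => by simpa [e] using hn o
  have hy : ∀ o, 0 < sg (sd o) * (-1 / (ψ o).2) := fun o => by
    have : sg (sd o) * (-1 / (ψ o).2) = -(sg (sd o) * (ψ o).2) / (ψ o).2 ^ 2 := by
      field_simp [h0 o]
    rw [this]
    exact div_pos (neg_pos.2 (hn o)) (by have := h0 o; positivity)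
  have nc : ∀ o o', rk o' < rk o → ∀ a ∈ A o, ∀ b ∈ A o',
      ∀ u ∈ segment ℝ (-(ψ o).1 / (ψ o).2, -1 / (ψ o).2) (X a, (0 : ℝ)),
      u ∈ segment ℝ (-(ψ o').1 / (ψ o').2, -1 / (ψ o').2) (X b, (0 : ℝ)) →
      a = b ∧ u = (X a, 0) := by
    intro o o' hr a ha b hb u hu hu'
    have y1 := hy o
    have y2 := hy o'
    rcases seg (h0 o) hu with e | ⟨α, β, h1, h2, h3, h4⟩ <;>
      rcases seg (h0 o') hu' with e' | ⟨α', β', h1', h2', h3', h4'⟩
    · exact ⟨hX.injective (congrArg Prod.fst (e.symm.trans e')), e⟩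
    · rw [e] at h3'
      rcases mul_eq_zero.1 h3'.symm with k | k
      · exact absurd k h1'.ne'
      · simp [k] at y2
    · rw [e'] at h3
      rcases mul_eq_zero.1 h3.symm with k | k
      · exact absurd k h1.ne'
      · simp [k] at y1
    have u1 : 0 < sg (sd o) * u.2 := by rw [h3]; nlinarith [mul_pos h1 y1]
    have u2 : 0 < sg (sd o') * u.2 := by rw [h3']; nlinarith [mul_pos h1' y2]
    have hs : sd o' = sd o := by
      revert u1 u2
      cases sd o <;> cases sd o' <;> simp [sg] <;> exact le_of_lt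
    have m := hF.mem o a ha
    have k := key hF hX hP o o' hs hr b (Or.inl hb)
    have e : ∀ w, sg (sd o) * u.2 * (sg (sd o) * w) = u.2 * w := fun w => by
      linear_combination u.2 * w * sg_sq (sd o)
    exfalso
    rcases hF.gap o o' hs hr b (Or.inl hb) with g | g
    · obtain ⟨c, c1, c2, c3⟩ := k.1 g
      have := mul_pos u1 c3
      rw [e] at this
      linarith [h4 (X c), h4' (X c), mul_nonneg h2 (sub_nonneg.2 (hX.monotone (c2.trans m.1))),
        mul_nonneg h2' (sub_nonneg.2 (hX.monotone c1))]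
    · obtain ⟨c, c1, c2, c3⟩ := k.2 g
      have := mul_neg_of_pos_of_neg u1 c3
      rw [e] at this
      linarith [h4 (X c), h4' (X c), mul_nonneg h2 (sub_nonneg.2 (hX.monotone (m.2.trans c1))),
        mul_nonneg h2' (sub_nonneg.2 (hX.monotone c2))]
  refine ⟨fun o => (-(ψ o).1 / (ψ o).2, -1 / (ψ o).2), hy, fun o o' n a ha b hb u hu hu' => ?_,
    fun z h p e => ?_⟩
  · rcases lt_trichotomy (rk o') (rk o) with k | k | k
    · exact nc o o' k a ha b hb u hu hu'
    · exact absurd (hF.inj k).symm n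
    · obtain ⟨rfl, e⟩ := nc o' o k b hb a ha u hu' hu
      exact ⟨rfl, e⟩
  · have t := hP.tie z h p e
    have s := (hW.tie z h p e).1
    have y1 := hn z
    have y2 := hn h
    have n1 := h0 z
    have n2 := h0 h
    have pr : (ψ h).2 * (ψ z).2 < 0 := by
      revert s y1 y2
      cases sd z <;> cases sd h <;> simp [sg] <;> intro a b <;> nlinarith
    have n3 : (ψ h).2 - (ψ z).2 ≠ 0 := fun k => by
      rw [sub_eq_zero.1 k] at pr
      nlinarith
    simp only [ev] at t
    refine ⟨(ψ h).2 / ((ψ h).2 - (ψ z).2), -(ψ z).2 / ((ψ h).2 - (ψ z).2), ?_, ?_, ?_, ?_⟩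
    · rw [div_nonneg_iff]
      rcases mul_neg_iff.1 pr with k | k
      · exact Or.inl ⟨by linarith, by linarith⟩
      · exact Or.inr ⟨by linarith, by linarith⟩
    · rw [div_nonneg_iff]
      rcases mul_neg_iff.1 pr with k | k
      · exact Or.inl ⟨by linarith, by linarith⟩
      · exact Or.inr ⟨by linarith, by linarith⟩
    · field_simp
      ring
    · ext
      · simp only [Prod.fst_add, Prod.smul_fst, smul_eq_mul]
        field_simp
        linarith
      · simp only [Prod.snd_add, Prod.smul_snd, smul_eq_mul]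
        field_simp
        ring

end Pool.Agent.MP_856573_co.H74
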