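import Pool.Agent.MP_856573_co.H1.Sel2
import Pool.Agent.MP_856573_co.H3.Sel1
import Pool.Agent.MP_856573_co.H8.Top
import Pool.Agent.MP_856573_co.H9.Tb
import Pool.Agent.MP_856573_co.H13.Split
import Pool.Agent.MP_856573_co.H14.Zed
import Pool.Agent.MP_856573_co.H15.Asm
import Pool.Agent.MP_856573_co.H21.Base
import Pool.Agent.MP_856573_co.H28.Pert
import Pool.Agent.MP_856573_co.H30.Gor
import Pool.Agent.MP_856573_co.H37.Draw
import Pool.Agent.MP_856573_co.H40.Ct
import Pool.Agent.MP_856573_co.H42.ConRow
import Pool.Agent.MP_856573_co.H45.Lam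
import Pool.Agent.MP_856573_co.H47.Al
import Pool.Agent.MP_856573_co.H47.Bridge
import Pool.Agent.MP_856573_co.H47.TriD
import Pool.Agent.MP_856573_co.H51.Hex
import Pool.Agent.MP_856573_co.H52.Ytri
import Pool.Agent.MP_856573_co.H60.Sides
import Pool.Agent.MP_856573_co.H62.Fo
import Pool.Agent.MP_856573_co.H74.Final
import Pool.Agent.MP_856573_co.H74.Geo
import Pool.Agent.MP_856573_co.H80.Be
import Pool.Agent.MP_856573_co.H86.Obj
import Pool.Agent.MP_856573_co.H97.Link

/-! The lower bound. -/

namespace Pool.Agent.MP_856573_co.H74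

open Pool.Agent.MP_856573_co.H90 (IsPlanar m)

theorem tpall : TPall := top setf red (be tri tb (link tb)) al ct zed

theorem svall : SVall :=
  asm (split tb) (lam tb (split tb)) (base tpall tb (split tb) (ytri tb) hex con)

theorem lower (four : MP_31805c_co.H47.FourCol) {V : Type} [Fintype V] [DecidableEq V]
    (G : SimpleGraph V) (hG : IsPlanar G) (h4 : 4 ≤ Fintype.card V) :
    11 * Fintype.card V ≤ 16 * m G :=
  final tri tb (split tb) (lam tb (split tb)) (ytri tb) sides svall root sel1 sel2 obj fo gor geo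
    draw pert four G (H47.mac_of_H90 hG) h4

end Pool.Agent.MP_856573_co.H74
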