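import Pool.Agent.MP_856573_co.H74.Spec
import Pool.Agent.MP_31805c_co.H47.Fam
import Pool.Agent.MP_31805c_co.H47.MinorMac

/-! Basic facts on paths, connected sets, attachments and forbidden minors. -/

namespace Pool.Agent.MP_856573_co.H74

open Set
open Pool.Agent.MP_31805c_co.H47 (Mac Minor minorMac fam)
open Pool.Agent.MP_31805c_co.H93 (Conn)

variable {V : Type} {G G' : SimpleGraph V}

/-! ### Connected sets -/

theorem conn_congr {W : Set V} (h : ∀ u ∈ W, ∀ v ∈ W, G.Adj u v → G'.Adj u v) {u v : V}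
    (hc : Conn G W u v) : Conn G' W u v := by
  induction hc with
  | refl => exact Conn.refl _ _
  | tail _ h' ih => exact ih.trans (Conn.adj (h _ h'.2.1 _ h'.2.2 h'.1) h'.2.1 h'.2.2)

/-- Induction along a walk. -/
theorem conn_ind {W : Set V} {u v : V} (p : V → Prop) (hc : Conn G W u v) (h0 : p u)
    (hs : ∀ a ∈ W, ∀ b ∈ W, Conn G W u a → G.Adj a b → p a → p b) : p v := by
  induction hc with
  | refl => exact h0
  | tail h1 h' ih => exact hs _ h'.2.1 _ h'.2.2 h1 h'.1 ih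

/-- A walk in `W` that starts in a subset closed under adjacency stays there. -/
theorem conn_closed {W W' : Set V} (hcl : ∀ a ∈ W', ∀ b ∈ W, G.Adj a b → b ∈ W') {u v : V}
    (hu : u ∈ W') (hc : Conn G W u v) : Conn G W' u v :=
  (conn_ind (fun x => x ∈ W' ∧ Conn G W' u x) hc ⟨hu, Conn.refl _ _⟩ fun a _ b hb _ hab h =>
    ⟨hcl a h.1 b hb hab, h.2.trans (Conn.adj hab h.1 (hcl a h.1 b hb hab))⟩).2

/-- The first step of a walk out of a set. -/
theorem conn_exit {W X : Set V} {u v : V} (hc : Conn G W u v) (hu : u ∉ X) (hv : v ∈ X) :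
    ∃ a b, Conn G (W \ X) u a ∧ a ∉ X ∧ b ∈ W ∧ b ∈ X ∧ G.Adj a b := by
  have := conn_ind (fun x => (x ∉ X ∧ Conn G (W \ X) u x) ∨
    ∃ a b, Conn G (W \ X) u a ∧ a ∉ X ∧ b ∈ W ∧ b ∈ X ∧ G.Adj a b) hc
    (Or.inl ⟨hu, Conn.refl _ _⟩) fun a ha b hb _ hab h => by
      rcases h with h | h
      · by_cases hX : b ∈ X
        · exact Or.inr ⟨a, b, h.2, h.1, hb, hX, hab⟩
        · exact Or.inl ⟨hX, h.2.trans (Conn.adj hab ⟨ha, h.1⟩ ⟨hb, hX⟩)⟩
      · exact Or.inr h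
  exact this.resolve_left fun h => h.1 hv

theorem cn_single (v : V) : Cn G {v} := by
  rintro _ rfl _ rfl
  exact Conn.refl _ _

theorem cn_empty : Cn G ∅ := fun _ h => h.elim

theorem cn_of {X : Set V} (c : V) (h : ∀ x ∈ X, Conn G X x c) : Cn G X :=
  fun x hx y hy => (h x hx).trans (h y hy).symm

theorem cn_comp (W : Set V) (v : V) : Cn G {u | Conn G W v u} :=
  fun _ hx _ hy => (Conn.comp hx).symm.trans (Conn.comp hy)

theorem Cn.union {X Y : Set V} (hX : Cn G X) (hY : Cn G Y) (h : SA G X Y) : Cn G (X ∪ Y) := by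
  obtain ⟨x, hx, y, hy, hxy⟩ := h
  refine cn_of x ?_
  rintro z (hz | hz)
  · exact (hX z hz x hx).mono subset_union_left
  · exact ((hY z hz y hy).mono subset_union_right).trans
      (Conn.adj hxy.symm (Or.inr hy) (Or.inl hx))

theorem Cn.union' {X Y : Set V} (hX : Cn G X) (hY : Cn G Y) {c : V} (h1 : c ∈ X) (h2 : c ∈ Y) :
    Cn G (X ∪ Y) := by
  refine cn_of c ?_
  rintro z (hz | hz)
  · exact (hX z hz c h1).mono subset_union_left
  · exact (hY z hz c h2).mono subset_union_right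

/-- The first set may be empty. -/
theorem Cn.union_or {X Y : Set V} (hX : Cn G X) (hY : Cn G Y) (h : X = ∅ ∨ SA G X Y) :
    Cn G (X ∪ Y) := by
  rcases h with rfl | h
  · rwa [empty_union]
  · exact hX.union hY h

theorem SA.symm {X Y : Set V} (h : SA G X Y) : SA G Y X :=
  let ⟨x, hx, y, hy, a⟩ := h
  ⟨y, hy, x, hx, a.symm⟩

theorem SA.mono {X Y X' Y' : Set V} (h : SA G X Y) (h1 : X ⊆ X') (h2 : Y ⊆ Y') : SA G X' Y' :=
  let ⟨x, hx, y, hy, a⟩ := h
  ⟨x, h1 hx, y, h2 hy, a⟩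

theorem sa_single {x y : V} : SA G {x} {y} ↔ G.Adj x y :=
  ⟨by rintro ⟨_, rfl, _, rfl, h⟩; exact h, fun h => ⟨x, rfl, y, rfl, h⟩⟩

/-! ### Paths -/

theorem Pa.conn {q : ℕ → V} {m : ℕ} (h : Pa G q m) {W : Set V} {a b : ℕ} (hab : a ≤ b)
    (hb : b ≤ m) (hW : ∀ i, a ≤ i → i ≤ b → q i ∈ W) : Conn G W (q a) (q b) := by
  induction b, hab using Nat.le_induction with
  | base => exact Conn.refl _ _
  | succ k hk ih =>
    exact Conn.trans (ih (by omega) fun i h1 h2 => hW i h1 (by omega))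
      (Conn.adj (h.adj k (by omega)) (hW k hk (by omega)) (hW _ (by omega) le_rfl))

/-- The image of an interval of indices is connected. -/
theorem Pa.cn {q : ℕ → V} {m : ℕ} (h : Pa G q m) {J : Set ℕ} (hJ : J.OrdConnected)
    (hm : ∀ i ∈ J, i ≤ m) : Cn G (q '' J) := by
  rintro _ ⟨a, ha, rfl⟩ _ ⟨b, hb, rfl⟩
  rcases le_total a b with hab | hab
  · exact h.conn hab (hm b hb) fun i h1 h2 => ⟨i, hJ.out ha hb ⟨h1, h2⟩, rfl⟩
  · exact Conn.symm (h.conn hab (hm a ha) fun i h1 h2 => ⟨i, hJ.out hb ha ⟨h1, h2⟩, rfl⟩)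

theorem Pa.mem {q : ℕ → V} {m : ℕ} (h : Pa G q m) {J : Set ℕ} (hm : ∀ i ∈ J, i ≤ m) {a : ℕ}
    (ha : a ≤ m) : q a ∈ q '' J ↔ a ∈ J :=
  ⟨fun ⟨i, hi, e⟩ => h.inj i (hm i hi) a ha e ▸ hi, fun ha => ⟨a, ha, rfl⟩⟩

theorem Pa.disj {q : ℕ → V} {m : ℕ} (h : Pa G q m) {J J' : Set ℕ} (hm : ∀ i ∈ J, i ≤ m)
    (hm' : ∀ i ∈ J', i ≤ m) (hd : ∀ i ∈ J, i ∉ J') : Disjoint (q '' J) (q '' J') := by
  rw [disjoint_left]
  rintro _ ⟨a, ha, rfl⟩ hb
  exact hd a ha ((h.mem hm' (hm a ha)).1 hb)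

theorem Pa.le {q : ℕ → V} {m k : ℕ} (h : Pa G q m) (hk : k ≤ m) : Pa G q k :=
  ⟨fun i hi => h.adj i (by omega), fun i hi j hj => h.inj i (by omega) j (by omega)⟩

theorem Pa.rev {q : ℕ → V} {m : ℕ} (h : Pa G q m) : Pa G (fun i => q (m - i)) m :=
  ⟨fun i hi => by
    have := (h.adj (m - (i + 1)) (by omega)).symm
    rwa [show m - (i + 1) + 1 = m - i by omega] at this,
   fun i hi j hj e => by
    have := h.inj _ (Nat.sub_le _ _) _ (Nat.sub_le _ _) e
    omega⟩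

theorem Pa.congr {q : ℕ → V} {m : ℕ} (h : Pa G q m)
    (hG : ∀ u ∈ q '' Iic m, ∀ v ∈ q '' Iic m, G.Adj u v → G'.Adj u v) : Pa G' q m :=
  ⟨fun i hi => hG _ ⟨i, hi.le, rfl⟩ _ ⟨i + 1, hi, rfl⟩ (h.adj i hi), h.inj⟩

theorem Pa.hp {q : ℕ → V} {m a b : ℕ} (h : Pa G q m) (hab : a ≤ b) (hb : b ≤ m) :
    HP G (q '' Icc a b) (q a) (q b) := by
  refine ⟨fun i => q (a + i), b - a, ⟨fun i hi => h.adj (a + i) (by omega), fun i hi j hj e => ?_⟩,
    rfl, by simp [hab], ?_⟩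
  · have := h.inj _ (by omega) _ (by omega) e
    omega
  · ext x
    constructor
    · rintro ⟨i, hi, rfl⟩
      exact ⟨i - a, Nat.sub_le_sub_right hi.2 a, by simp [hi.1]⟩
    · rintro ⟨i, hi, rfl⟩
      have : i ≤ b - a := hi
      exact ⟨a + i, ⟨by omega, by omega⟩, rfl⟩

theorem hp_single (A : V) : HP G {A} A A :=
  ⟨fun _ => A, 0, ⟨fun _ h => absurd h (Nat.not_lt_zero _), fun _ _ _ _ _ => by omega⟩, rfl, rfl,
    by simp⟩

theorem HP.left {P : Set V} {A B : V} (h : HP G P A B) : A ∈ P := by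
  obtain ⟨q, m, -, rfl, -, rfl⟩ := h
  exact ⟨0, Nat.zero_le m, rfl⟩

theorem HP.right {P : Set V} {A B : V} (h : HP G P A B) : B ∈ P := by
  obtain ⟨q, m, -, -, rfl, rfl⟩ := h
  exact ⟨m, le_refl m, rfl⟩

theorem HP.cn {P : Set V} {A B : V} (h : HP G P A B) : Cn G P := by
  obtain ⟨q, m, h, -, -, rfl⟩ := h
  exact h.cn ordConnected_Iic fun _ hi => hi

theorem HP.congr {P : Set V} {A B : V} (h : HP G P A B)
    (hG : ∀ u ∈ P, ∀ v ∈ P, G.Adj u v → G'.Adj u v) : HP G' P A B := by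
  obtain ⟨q, m, h, h1, h2, rfl⟩ := h
  exact ⟨q, m, h.congr hG, h1, h2, rfl⟩

theorem HP.symm {P : Set V} {A B : V} (h : HP G P A B) : HP G P B A := by
  obtain ⟨q, m, h, rfl, rfl, rfl⟩ := h
  refine ⟨_, m, h.rev, by simp, by simp, ?_⟩
  ext x
  constructor
  · rintro ⟨i, hi, rfl⟩
    exact ⟨m - i, Nat.sub_le _ _, by simp [Nat.sub_sub_self hi]⟩
  · rintro ⟨i, -, rfl⟩
    exact ⟨m - i, Nat.sub_le _ _, rfl⟩

/-- Two disjoint paths joined by an edge. -/
theorem HP.join {P P' : Set V} {A B C E : V} (h : HP G P A B) (h' : HP G P' C E)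
    (hd : Disjoint P P') (ha : G.Adj B C) : HP G (P ∪ P') A E := by
  obtain ⟨q, m, h, rfl, rfl, rfl⟩ := h
  obtain ⟨p, k, h', rfl, rfl, rfl⟩ := h'
  refine ⟨fun i => if i ≤ m then q i else p (i - (m + 1)), m + 1 + k, ⟨fun i hi => ?_,
    fun i hi j hj e => ?_⟩, by simp, by simp [show ¬ m + 1 + k ≤ m by omega], ?_⟩
  · rcases lt_trichotomy i m with h1 | rfl | h1
    · rw [if_pos h1.le, if_pos (show i + 1 ≤ m from h1)]
      exact h.adj i h1
    · simpa using ha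
    · rw [if_neg (by omega), if_neg (by omega), show i + 1 - (m + 1) = i - (m + 1) + 1 by omega]
      exact h'.adj _ (by omega)
  · by_cases h1 : i ≤ m <;> by_cases h2 : j ≤ m <;> simp only [h1, h2, if_true, if_false] at e
    · exact h.inj i h1 j h2 e
    · exact absurd ⟨j - (m + 1), show _ ≤ k by omega, e.symm⟩ (disjoint_left.1 hd ⟨i, h1, rfl⟩)
    · exact absurd ⟨i - (m + 1), show _ ≤ k by omega, e⟩ (disjoint_left.1 hd ⟨j, h2, rfl⟩)
    · have := h'.inj _ (by omega) _ (by omega) e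
      omega
  · ext x
    constructor
    · rintro (⟨i, hi, rfl⟩ | ⟨i, hi, rfl⟩)
      · have : i ≤ m := hi
        exact ⟨i, show i ≤ _ by omega, if_pos this⟩
      · have : i ≤ k := hi
        exact ⟨m + 1 + i, show m + 1 + i ≤ m + 1 + k by omega,
          by simp [show ¬ m + 1 + i ≤ m by omega]⟩
    · rintro ⟨i, hi, rfl⟩
      have : i ≤ m + 1 + k := hi
      by_cases h1 : i ≤ m
      · exact Or.inl ⟨i, h1, (if_pos h1).symm⟩
      · exact Or.inr ⟨i - (m + 1), show _ ≤ k by omega, (if_neg h1).symm⟩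

/-- Two paths with one common end. -/
theorem HP.cat {P P' : Set V} {A B C : V} (h : HP G P A B) (h' : HP G P' B C)
    (hd : ∀ x ∈ P, x ∈ P' → x = B) : HP G (P ∪ P') A C := by
  obtain ⟨p, k, hp, rfl, rfl, rfl⟩ := h'
  rcases Nat.eq_zero_or_pos k with rfl | hk
  · rwa [union_eq_left.2]
    rintro _ ⟨i, hi, rfl⟩
    obtain rfl : i = 0 := Nat.le_zero.1 hi
    exact h.right
  · have := h.join (hp.hp (a := 1) hk le_rfl) (by
      rw [disjoint_left]
      rintro _ hx ⟨i, hi, rfl⟩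
      have := hp.inj i hi.2 0 (Nat.zero_le _) (hd _ hx ⟨i, hi.2, rfl⟩)
      have := hi.1
      omega) (hp.adj 0 hk)
    have e : P ∪ p '' Iic k = P ∪ p '' Icc 1 k := by
      apply Subset.antisymm
      · rintro x (hx | ⟨i, hi, rfl⟩)
        · exact Or.inl hx
        · rcases Nat.eq_zero_or_pos i with rfl | h0
          · exact Or.inl h.right
          · exact Or.inr ⟨i, ⟨h0, hi⟩, rfl⟩
      · exact union_subset_union_right _ (image_mono fun i hi => hi.2)
    rwa [e]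

/-! ### Attachments -/

theorem At.sub {W X : Set V} {v : V} : At G W X v ⊆ X := fun _ h => h.1

theorem At.mono {W W' X X' : Set V} {v : V} (hW : W ⊆ W') (hX : X ⊆ X') :
    At G W X v ⊆ At G W' X' v := fun _ ⟨h, u, h1, h2⟩ => ⟨hX h, u, h1.mono hW, h2⟩

theorem At.conn {W X : Set V} {v w : V} (h : Conn G W v w) : At G W X v = At G W X w := by
  ext x
  exact ⟨fun ⟨hx, u, h1, h2⟩ => ⟨hx, u, h.symm.trans h1, h2⟩,
    fun ⟨hx, u, h1, h2⟩ => ⟨hx, u, h.trans h1, h2⟩⟩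

theorem At.union {W X Y : Set V} {v : V} : At G W (X ∪ Y) v = At G W X v ∪ At G W Y v := by
  ext x
  exact or_and_right

/-- The component of `v` is the same in `W` and in a closed subset `W'`. -/
theorem At.closed {W W' X : Set V} {v : V} (hW : W' ⊆ W)
    (hcl : ∀ a ∈ W', ∀ b ∈ W, G.Adj a b → b ∈ W') (hv : v ∈ W') : At G W X v = At G W' X v :=
  Subset.antisymm (fun _ ⟨h, u, h1, h2⟩ => ⟨h, u, conn_closed hcl hv h1, h2⟩)
    (At.mono hW Subset.rfl)

theorem tc_le {W Z : Set V} {v : V} : tc G W Z v ≤ 1 := by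
  unfold tc
  split_ifs <;> omega

theorem tc_pos {W Z : Set V} {v : V} (h : (At G W Z v).Nonempty) : tc G W Z v = 1 := if_pos h

theorem tc_neg {W Z : Set V} {v : V} (h : ¬ (At G W Z v).Nonempty) : tc G W Z v = 0 := if_neg h

theorem tc_mono {W Z W' Z' : Set V} {v v' : V}
    (h : (At G W Z v).Nonempty → (At G' W' Z' v').Nonempty) : tc G W Z v ≤ tc G' W' Z' v' := by
  by_cases h1 : (At G W Z v).Nonempty
  · rw [tc_pos h1, tc_pos (h h1)]
  · rw [tc_neg h1]
    exact Nat.zero_le _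

theorem tc_single {W : Set V} {z v : V} : tc G W {z} v = (At G W {z} v).ncard := by
  by_cases h : (At G W {z} v).Nonempty
  · rw [tc_pos h, (h.subset_singleton_iff.1 At.sub), ncard_singleton]
  · rw [tc_neg h, not_nonempty_iff_eq_empty.1 h, ncard_empty]

/-- A component that contains an inner vertex of a path with both ends in `P` has an attachment
before and an attachment after this vertex. -/
theorem Pa.two_att {q : ℕ → V} {m a i b : ℕ} (h : Pa G q m) {U P : Set V} (hai : a ≤ i)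
    (hib : i ≤ b) (hb : b ≤ m) (hU : ∀ j, a ≤ j → j ≤ b → q j ∈ U) (h1 : q a ∈ P) (h2 : q b ∈ P)
    (h3 : q i ∉ P) : ∃ x y, a ≤ x ∧ x < i ∧ i < y ∧ y ≤ b ∧ q x ∈ At G (U \ P) P (q i) ∧
      q y ∈ At G (U \ P) P (q i) := by
  classical
  have hx := Nat.findGreatest_spec (P := fun j => a ≤ j ∧ q j ∈ P) hai ⟨le_rfl, h1⟩
  set x := Nat.findGreatest (fun j => a ≤ j ∧ q j ∈ P) i
  have hxi : x ≤ i := Nat.findGreatest_le i
  have hxi' : x < i := lt_of_le_of_ne hxi fun e => h3 (e ▸ hx.2)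
  have hy : ∃ j, i ≤ j ∧ q j ∈ P := ⟨b, hib, h2⟩
  have hy1 := Nat.find_spec hy
  have hyb : Nat.find hy ≤ b := Nat.find_min' hy ⟨hib, h2⟩
  set y := Nat.find hy
  have hiy : i < y := lt_of_le_of_ne hy1.1 fun e => h3 (e ▸ hy1.2)
  refine ⟨x, y, hx.1, hxi', hiy, hyb, ⟨hx.2, q (x + 1), Conn.symm (h.conn hxi' (by omega)
    fun j h4 h5 => ⟨hU j (by omega) (by omega), fun h6 => Nat.findGreatest_is_greatest
      (P := fun j => a ≤ j ∧ q j ∈ P) (show x < j from h4) h5 ⟨by omega, h6⟩⟩),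
    (h.adj x (by omega)).symm⟩, hy1.2, q (y - 1), h.conn (by omega) (by omega) fun j h4 h5 =>
    ⟨hU j (by omega) (by omega), fun h6 => Nat.find_min hy (show j < y by omega) ⟨h4, h6⟩⟩, ?_⟩
  have := h.adj (y - 1) (by omega)
  rwa [show y - 1 + 1 = y by omega] at this

/-! ### Minors -/

variable [Fintype V] [DecidableEq V]

theorem mac_mono (h : Mac G) (hle : G' ≤ G) : Mac G' :=
  minorMac V V G G' h ⟨fun v => {v}, fun _ _ h => disjoint_singleton.2 h,
    fun v => cn_single v, fun u v a => ⟨u, rfl, v, rfl, hle a⟩⟩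

theorem mac_minor {W : Type} [Fintype W] [DecidableEq W] {H : SimpleGraph W} (h : Mac G)
    (B : W → Set V) (hd : ∀ w w', w ≠ w' → Disjoint (B w) (B w')) (hc : ∀ w, Cn G (B w))
    (ha : ∀ w w', H.Adj w w' → SA G (B w) (B w')) : Mac H :=
  minorMac V W G H h ⟨B, hd, hc, ha⟩

theorem not_mac_k5 : ¬ Mac (⊤ : SimpleGraph (Fin 5)) := fun h => by
  have h1 := fam.euler _ _ h (by simp)
  have h2 : (⊤ : SimpleGraph (Fin 5)).edgeSet.ncard = 10 := by
    rw [← SimpleGraph.coe_edgeFinset, Set.ncard_coe_finset,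
      SimpleGraph.card_edgeFinset_top_eq_card_choose_two]
    rfl
  rw [h2] at h1
  simp at h1

/-- No five disjoint connected sets are pairwise adjacent. -/
theorem k5 (h : Mac G) (X1 X2 X3 X4 X5 : Set V) (c1 : Cn G X1) (c2 : Cn G X2) (c3 : Cn G X3)
    (c4 : Cn G X4) (c5 : Cn G X5) (d12 : Disjoint X1 X2) (d13 : Disjoint X1 X3)
    (d14 : Disjoint X1 X4) (d15 : Disjoint X1 X5) (d23 : Disjoint X2 X3) (d24 : Disjoint X2 X4)
    (d25 : Disjoint X2 X5) (d34 : Disjoint X3 X4) (d35 : Disjoint X3 X5) (d45 : Disjoint X4 X5)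
    (a12 : SA G X1 X2) (a13 : SA G X1 X3) (a14 : SA G X1 X4) (a15 : SA G X1 X5) (a23 : SA G X2 X3)
    (a24 : SA G X2 X4) (a25 : SA G X2 X5) (a34 : SA G X3 X4) (a35 : SA G X3 X5)
    (a45 : SA G X4 X5) : False := by
  refine not_mac_k5 (mac_minor h ![X1, X2, X3, X4, X5] (fun i j hij => ?_) (fun i => ?_)
    fun i j hij => ?_)
  · fin_cases i <;> fin_cases j <;> first
      | exact absurd rfl hij
      | assumption
      | exact Disjoint.symm (by assumption)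
  · fin_cases i <;> assumption
  · fin_cases i <;> fin_cases j <;> first
      | exact absurd rfl hij.ne
      | assumption
      | exact SA.symm (by assumption)

/-- A graph on six vertices given by a list of edges. -/
def gl (l : List (Fin 6 × Fin 6)) : SimpleGraph (Fin 6) := SimpleGraph.fromRel fun a b => (a, b) ∈ l

theorem gl_adj (l : List (Fin 6 × Fin 6)) (a b : Fin 6) :
    (gl l).Adj a b ↔ a ≠ b ∧ ((a, b) ∈ l ∨ (b, a) ∈ l) := SimpleGraph.fromRel_adj _ _ _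

theorem gl_step {l : List (Fin 6 × Fin 6)} (h : Mac (gl l)) (v u w x c : Fin 6) (huw : u ≠ w)
    (hv : ∀ y, v ≠ y ∧ ((v, y) ∈ l ∨ (y, v) ∈ l) ↔ y = u ∨ y = w ∨ y = x) (hc : c ≠ v)
    (h1 : u ≠ c ∧ ((u, c) ∈ l ∨ (c, u) ∈ l)) (h2 : w ≠ c ∧ ((w, c) ∈ l ∨ (c, w) ∈ l)) :
    Mac (gl ((u, w) :: l)) := by
  have a1 : (gl l).Adj v u := (gl_adj _ _ _).2 ((hv u).2 (Or.inl rfl))
  have a2 : (gl l).Adj v w := (gl_adj _ _ _).2 ((hv w).2 (Or.inr (Or.inl rfl)))
  have cc : Conn (gl l) {v}ᶜ u w :=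
    (Conn.adj ((gl_adj _ _ _).2 h1) a1.ne' hc).trans
      (Conn.adj ((gl_adj _ _ _).2 h2).symm hc a2.ne')
  obtain ⟨u', hu, w', hw, hne, hM⟩ := fam.corner _ _ h v {u, w} (by
      rintro _ (rfl | rfl)
      exacts [a1, a2]) (by
      rintro _ (rfl | rfl)
      exacts [⟨w, a2, huw, cc⟩, ⟨u, a1, huw.symm, cc.symm⟩]) (by
      have : (gl l).neighborSet v ⊆ {u, w, x} := fun y hy => (hv y).1 ((gl_adj _ _ _).1 hy)
      have h3 := (ncard_le_ncard this (toFinite _)).trans (ncard_insert_le _ _)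
      have h4 := ncard_insert_le w ({x} : Set (Fin 6))
      rw [ncard_singleton] at h4
      rw [ncard_pair huw]
      unfold Pool.Agent.MP_31805c_co.H47.dg
      omega)
  refine mac_mono hM fun a b hab => ?_
  rw [gl_adj] at hab
  rw [SimpleGraph.sup_adj, gl_adj, SimpleGraph.edge_adj]
  simp only [List.mem_cons, Prod.mk.injEq] at hab
  rcases hu with rfl | rfl <;> rcases hw with rfl | rfl <;> tauto

theorem not_mac_k33 :
    ¬ Mac (gl [(0, 3), (0, 4), (0, 5), (1, 3), (1, 4), (1, 5), (2, 3), (2, 4), (2, 5)]) := fun h => by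
  classical
  have h1 := gl_step h 2 3 4 5 0 (by decide) (by decide) (by decide) (by decide) (by decide)
  have h2 := gl_step h1 5 0 1 2 3 (by decide) (by decide) (by decide) (by decide) (by decide)
  have h3 := gl_step h2 5 0 2 1 3 (by decide) (by decide) (by decide) (by decide) (by decide)
  have h4 := gl_step h3 5 1 2 0 3 (by decide) (by decide) (by decide) (by decide) (by decide)
  refine k5 h4 {0, 5} {1} {2} {3} {4} ?_ (cn_single _) (cn_single _) (cn_single _) (cn_single _)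
    (by simp) (by simp) (by simp) (by simp) (by simp) (by simp) (by simp) (by simp) (by simp)
    (by simp) ⟨0, by simp, 1, rfl, ?_⟩ ⟨0, by simp, 2, rfl, ?_⟩ ⟨0, by simp, 3, rfl, ?_⟩
    ⟨0, by simp, 4, rfl, ?_⟩ ⟨1, rfl, 2, rfl, ?_⟩ ⟨1, rfl, 3, rfl, ?_⟩ ⟨1, rfl, 4, rfl, ?_⟩
    ⟨2, rfl, 3, rfl, ?_⟩ ⟨2, rfl, 4, rfl, ?_⟩ ⟨3, rfl, 4, rfl, ?_⟩
  · exact (cn_single 0).union (cn_single 5) (sa_single.2 ((gl_adj _ _ _).2 (by decide)))
  all_goals exact (gl_adj _ _ _).2 (by decide)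

/-- No three and three disjoint connected sets are completely joined. -/
theorem k33 (h : Mac G) (X1 X2 X3 Y1 Y2 Y3 : Set V) (c1 : Cn G X1) (c2 : Cn G X2) (c3 : Cn G X3)
    (c4 : Cn G Y1) (c5 : Cn G Y2) (c6 : Cn G Y3) (x12 : Disjoint X1 X2) (x13 : Disjoint X1 X3)
    (x23 : Disjoint X2 X3) (y12 : Disjoint Y1 Y2) (y13 : Disjoint Y1 Y3) (y23 : Disjoint Y2 Y3)
    (d11 : Disjoint X1 Y1) (d12 : Disjoint X1 Y2) (d13 : Disjoint X1 Y3) (d21 : Disjoint X2 Y1)
    (d22 : Disjoint X2 Y2) (d23 : Disjoint X2 Y3) (d31 : Disjoint X3 Y1) (d32 : Disjoint X3 Y2)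
    (d33 : Disjoint X3 Y3) (a11 : SA G X1 Y1) (a12 : SA G X1 Y2) (a13 : SA G X1 Y3)
    (a21 : SA G X2 Y1) (a22 : SA G X2 Y2) (a23 : SA G X2 Y3) (a31 : SA G X3 Y1)
    (a32 : SA G X3 Y2) (a33 : SA G X3 Y3) : False := by
  refine not_mac_k33 (mac_minor h ![X1, X2, X3, Y1, Y2, Y3] (fun i j hij => ?_) (fun i => ?_)
    fun i j hij => ?_)
  · fin_cases i <;> fin_cases j <;> first
      | exact absurd rfl hij
      | assumption
      | exact Disjoint.symm (by assumption)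
  · fin_cases i <;> assumption
  · rw [gl_adj] at hij
    fin_cases i <;> fin_cases j <;> first
      | exact absurd hij (by decide)
      | assumption
      | exact SA.symm (by assumption)

end Pool.Agent.MP_856573_co.H74
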