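import Pool.Agent.MP_31805c_co.H47.SpecA
import Pool.Agent.MP_856573_co.H90.Defs

/-!
One-bend free sets: definitions and the statements of the modules of the lower bound.
-/

namespace Pool.Agent.MP_856573_co.H74

open Set
open Pool.Agent.MP_31805c_co.H47 (Mac Z2 K4)
open Pool.Agent.MP_31805c_co.H93 (Conn)
open Pool.Agent.MP_856573_co.H90 (OneBend IsFree)

section Defs

variable {V : Type}

/-! ### Paths and attachments -/

/-- `q 0, …, q m` is a path. -/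
structure Pa (G : SimpleGraph V) (q : ℕ → V) (m : ℕ) : Prop where
  adj : ∀ i < m, G.Adj (q i) (q (i + 1))
  inj : ∀ i ≤ m, ∀ j ≤ m, q i = q j → i = j

/-- `P` is the vertex set of a path from `A` to `B`. -/
def HP (G : SimpleGraph V) (P : Set V) (A B : V) : Prop :=
  ∃ q m, Pa G q m ∧ q 0 = A ∧ q m = B ∧ P = q '' Iic m

/-- `X` is connected. -/
def Cn (G : SimpleGraph V) (X : Set V) : Prop := ∀ x ∈ X, ∀ y ∈ X, Conn G X x y

/-- Some edge joins `X` and `Y`. -/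
def SA (G : SimpleGraph V) (X Y : Set V) : Prop := ∃ x ∈ X, ∃ y ∈ Y, G.Adj x y

/-- The vertices of `X` that are adjacent to the component of `v` in `W`. -/
def At (G : SimpleGraph V) (W X : Set V) (v : V) : Set V :=
  {x | x ∈ X ∧ ∃ u, Conn G W v u ∧ G.Adj u x}

open Classical in
/-- One if the component of `v` in `W` has a neighbour in `Z`, zero otherwise. -/
noncomputable def tc (G : SimpleGraph V) (W Z : Set V) (v : V) : ℕ :=
  if (At G W Z v).Nonempty then 1 else 0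

/-! ### Paths with few attachments -/

/-- The ground set `U` with ends `A`, `B` lies in the pentagon `A, Z0, B, Z2, Z1` (or in the
square `A, Z0, B, Z1` if `Z1 = Z2`), and `Z0` sees all other corners. -/
structure Fr [Fintype V] [DecidableEq V] (G : SimpleGraph V) (U : Set V) (A B : V)
    (Z0 Z1 Z2 : Set V) : Prop where
  mac : Mac G
  hA : A ∈ U
  hB : B ∈ U
  ne : A ≠ B
  conn : Conn G U A B
  d0 : Disjoint Z0 U
  d1 : Disjoint Z1 U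
  d2 : Disjoint Z2 U
  d01 : Disjoint Z0 Z1
  d02 : Disjoint Z0 Z2
  d12 : Z1 = Z2 ∨ (Disjoint Z1 Z2 ∧ SA G Z1 Z2)
  c0 : Cn G Z0
  c1 : Cn G Z1
  c2 : Cn G Z2
  a0 : SA G Z0 {A}
  b0 : SA G Z0 {B}
  a1 : SA G Z1 {A}
  b2 : SA G Z2 {B}
  e1 : SA G Z0 Z1
  e2 : SA G Z0 Z2

/-- The number of attachments of the component of `v` in `U \ P`: vertices of `P` and corners. -/
noncomputable def cnt (G : SimpleGraph V) (U P Z0 Z1 Z2 : Set V) (v : V) : ℕ :=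
  (At G (U \ P) P v).ncard + tc G (U \ P) Z0 v + tc G (U \ P) Z1 v + tc G (U \ P) (Z2 \ Z1) v

/-- There is a path whose components have at most three attachments; the target `t` is on the
path or hangs behind a smaller cut. -/
def Good (G : SimpleGraph V) (U : Set V) (A B : V) (Z0 Z1 Z2 : Set V) (t : V) : Prop :=
  ∃ P ⊆ U, HP G P A B ∧ ∀ v ∈ U \ P, cnt G U P Z0 Z1 Z2 v ≤ 3 ∧
    (v = t → cnt G U P Z0 Z1 Z2 v ≤ 2 ∨ (At G (U \ P) P v).ncard ≤ 1)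

/-- No target, or a square, or the side `Z0` is empty. -/
def Mode (G : SimpleGraph V) (U : Set V) (A B : V) (Z0 Z1 Z2 : Set V) (t : V) : Prop :=
  t ∉ U ∨ Z1 = Z2 ∨ ∀ u ∈ U, ∀ z ∈ Z0, G.Adj z u → u = A ∨ u = B

/-- The path theorem for ground sets with fewer than `n` vertices. -/
def TP (V : Type) [Fintype V] [DecidableEq V] (n : ℕ) : Prop :=
  ∀ (G : SimpleGraph V) (U : Set V) (A B : V) (Z0 Z1 Z2 : Set V) (t : V), U.ncard < n →
    Fr G U A B Z0 Z1 Z2 → Mode G U A B Z0 Z1 Z2 t → Good G U A B Z0 Z1 Z2 t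

/-- Nothing hangs at one vertex. -/
def NH (G : SimpleGraph V) (U : Set V) (A B : V) : Prop :=
  ∀ y ∈ U, ∀ v ∈ U, v ≠ y → ∃ e, (e = A ∨ e = B) ∧ e ≠ y ∧ Conn G (U \ {y}) v e

/-- The neighbours of `s1` and `s2` in `U` form a path from `A` to `B`; `q j` is the junction. -/
structure Bd (G : SimpleGraph V) (U : Set V) (A B s1 s2 : V) (q : ℕ → V) (m j : ℕ) : Prop where
  pa : Pa G q m
  q0 : q 0 = A
  qm : q m = B
  sub : ∀ i ≤ m, q i ∈ U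
  jm : j ≤ m
  l : ∀ i ≤ j, G.Adj s1 (q i)
  r : ∀ i, j ≤ i → i ≤ m → G.Adj s2 (q i)
  l' : ∀ u ∈ U, G.Adj s1 u → ∃ i ≤ m, q i = u ∧ (i ≤ j ∨ s1 = s2)
  r' : ∀ u ∈ U, G.Adj s2 u → ∃ i ≤ m, q i = u ∧ (j ≤ i ∨ s1 = s2)

/-- The target is the vertex `q i` or lies in a component adjacent to it. -/
def Loc (G : SimpleGraph V) (W : Set V) (q : ℕ → V) (m : ℕ) (t : V) (i : ℕ) : Prop :=
  t = q i ∨ (t ∉ q '' Iic m ∧ q i ∈ At G (W \ q '' Iic m) (q '' Iic m) t)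

/-- The situation in which the path `q` absorbs the components of `W` that hang on it: the paths
`q` and `o` form a cycle, and the connected set `S` sees all of `q`. -/
structure AH [Fintype V] [DecidableEq V] (G : SimpleGraph V) (W : Set V) (q : ℕ → V) (m : ℕ)
    (o : ℕ → V) (r : ℕ) (S : Set V) (t : V) : Prop where
  mac : Mac G
  pq : Pa G q m
  po : Pa G o r
  qW : ∀ i ≤ m, q i ∈ W
  oW : ∀ i ≤ r, o i ∉ W
  oS : ∀ i ≤ r, o i ∉ S
  dS : Disjoint S W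
  cS : Cn G S
  sq : ∀ i ≤ m, SA G S {q i}
  so : SA G S {o 0}
  l0 : G.Adj (q 0) (o 0)
  lm : G.Adj (q m) (o r)
  sS : ∀ u ∈ W, SA G S {u} → u ∈ q '' Iic m
  two : ∀ v ∈ W \ q '' Iic m, (At G (W \ q '' Iic m) (o '' Iic r) v).ncard ≤ 2
  rt : ∀ v ∈ W \ q '' Iic m, q m ∈ At G (W \ q '' Iic m) (q '' Iic m) v → ∀ x y, x < y → y ≤ r →
    o x ∈ At G (W \ q '' Iic m) (o '' Iic r) v → o y ∈ At G (W \ q '' Iic m) (o '' Iic r) v →
    ∃ z, x < z ∧ z ≤ r ∧ SA G S {o z}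
  t1 : t ∈ W \ q '' Iic m → (At G (W \ q '' Iic m) (o '' Iic r) t).ncard ≤ 1
  t2 : t ∈ W → (t ∉ q '' Iic m ∧ (At G (W \ q '' Iic m) (o '' Iic r) t).Nonempty) ∨
    (∀ i ≤ m, Loc G W q m t i → (∀ i' < i, ¬ Loc G W q m t i') → ∀ v ∈ W \ q '' Iic m,
      (At G (W \ q '' Iic m) (q '' Iic i) v).Nonempty →
      (At G (W \ q '' Iic m) (q '' Ioc i m) v).Nonempty →
      (At G (W \ q '' Iic m) (o '' Iic r) v).ncard ≤ 1)

/-! ### Triangulations -/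

/-- The graph induced on `D`, on the same vertex type. -/
def GD (G : SimpleGraph V) (D : Finset V) : SimpleGraph V where
  Adj u v := G.Adj u v ∧ u ∈ D ∧ v ∈ D
  symm := ⟨fun _ _ h => ⟨h.1.symm, h.2.2, h.2.1⟩⟩
  loopless := ⟨fun _ h => h.1.ne rfl⟩

/-- A triangle inside `D`. -/
def T3 (G : SimpleGraph V) (D T : Finset V) : Prop := T ⊆ D ∧ G.IsNClique 3 T

variable [DecidableEq V]

/-- The graph induced on `D` is a triangulation of the sphere with face set `F`. -/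
structure Tri (G : SimpleGraph V) (D : Finset V) (F : Finset (Finset V)) : Prop where
  face : ∀ f ∈ F, T3 G D f
  two : ∀ u ∈ D, ∀ v ∈ D, G.Adj u v → (F.filter fun f => u ∈ f ∧ v ∈ f).card = 2
  lc : ∀ v, ∀ X : Set (Finset V),
    (∀ f ∈ X, ∀ f' ∈ F, f ∈ F → v ∈ f → v ∈ f' → (∃ w, w ≠ v ∧ w ∈ f ∧ w ∈ f') → f' ∈ X) →
    ∀ f ∈ F, ∀ f' ∈ F, v ∈ f → v ∈ f' → f ∈ X → f' ∈ X
  conn : Cn G D
  four : 4 ≤ D.card
  span : ∀ a : Sym2 V → Z2,
    (∀ u v w, ({u, v, w} : Finset V) ∈ F → a s(u, v) + a s(u, w) + a s(v, w) = 0) →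
    ∃ p : V → Z2, ∀ u ∈ D, ∀ v ∈ D, G.Adj u v → a s(u, v) = p u + p v

open Classical in
/-- The vertices that the triangle `T` separates from the root face `T0`. -/
noncomputable def Inn (G : SimpleGraph V) (D T0 T : Finset V) : Finset V :=
  D.filter fun v => v ∉ T ∧ ∀ ρ ∈ T0, ρ ∉ T → ¬ Conn G ((D : Set V) \ T) v ρ

/-- `T` has a corner in the set `I T'`. -/
def Lt (I : Finset V → Finset V) (T T' : Finset V) : Prop := ∃ v ∈ T, v ∈ I T'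

/-- The edges of the faces on the side `β`. -/
def Gs (G : SimpleGraph V) (F : Finset (Finset V)) (σ : Finset V → Bool) (β : Bool) :
    SimpleGraph V where
  Adj u v := G.Adj u v ∧ ∃ f ∈ F, σ f = β ∧ u ∈ f ∧ v ∈ f
  symm := ⟨fun _ _ ⟨h, f, h1, h2, h3, h4⟩ => ⟨h.symm, f, h1, h2, h4, h3⟩⟩
  loopless := ⟨fun _ h => h.1.ne rfl⟩

/-- The two sides of the cycle `t, q 0, …, q m`. -/
structure Sides (G : SimpleGraph V) (F : Finset (Finset V)) (q : ℕ → V) (m : ℕ) (t : V)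
    (σ : Finset V → Bool) : Prop where
  on : ∀ i < m, ∀ f ∈ F, ∀ f' ∈ F, f ≠ f' → q i ∈ f → q (i + 1) ∈ f → q i ∈ f' → q (i + 1) ∈ f' →
    σ f ≠ σ f'
  off : ∀ v, v ∉ insert t (q '' Iic m) → ∀ f ∈ F, ∀ f' ∈ F, v ∈ f → v ∈ f' → σ f = σ f'
  nc : ∀ (β : Bool) (K K' : Set V) (a b c d : ℕ), Disjoint K K' →
    Disjoint K (insert t (q '' Iic m)) → Disjoint K' (insert t (q '' Iic m)) →
    a < b → b < c → c < d → d ≤ m → Conn (Gs G F σ β) (K ∪ {q a, q c}) (q a) (q c) →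
    Conn (Gs G F σ β) (K' ∪ {q b, q d}) (q b) (q d) → False
  n3 : ∀ (β : Bool) (K K' : Set V) (a b c : ℕ), Disjoint K K' →
    Disjoint K (insert t (q '' Iic m)) → Disjoint K' (insert t (q '' Iic m)) →
    Cn (Gs G F σ β) K → Cn (Gs G F σ β) K' → a < b → b < c → c ≤ m →
    (∀ i, i = a ∨ i = b ∨ i = c → SA (Gs G F σ β) K {q i} ∧ SA (Gs G F σ β) K' {q i}) → False

/-! ### Tokens: vertices, edges and faces as finite sets -/

/-- The simplices of the triangulation. -/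
def Cx (F : Finset (Finset V)) : Finset (Finset V) := F.biUnion fun f => f.powerset.erase ∅

/-- The barycentric subdivision. -/
def Yg (F : Finset (Finset V)) : SimpleGraph (Finset V) where
  Adj x y := x ∈ Cx F ∧ y ∈ Cx F ∧ (x ⊂ y ∨ y ⊂ x)
  symm := ⟨fun _ _ h => ⟨h.2.1, h.1, h.2.2.symm⟩⟩
  loopless := ⟨fun _ h => h.2.2.elim (fun h => h.ne rfl) fun h => h.ne rfl⟩

/-- The faces of the barycentric subdivision. -/
def Fl (F : Finset (Finset V)) : Finset (Finset (Finset V)) :=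
  F.biUnion fun f => f.offDiag.image fun p => {{p.1}, {p.1, p.2}, f}

/-- A step of the curve: vertex and edge without hub, vertex (not a hub) and face, edge with a hub
and face. -/
def St (Hb x y : Finset V) : Prop :=
  x ⊆ y ∧ ((x.card = 1 ∧ y.card = 2 ∧ Disjoint y Hb) ∨ (x.card = 1 ∧ y.card = 3 ∧ Disjoint x Hb) ∨
    (x.card = 2 ∧ y.card = 3 ∧ ¬ Disjoint x Hb))

/-- The graph in which the curve runs. -/
def Tk (Hb : Finset V) : SimpleGraph (Finset V) where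
  Adj x y := St Hb x y ∨ St Hb y x
  symm := ⟨fun _ _ h => h.symm⟩
  loopless := ⟨fun _ h => by
    rcases h with ⟨-, h | h | h⟩ | ⟨-, h | h | h⟩ <;> omega⟩

/-- The tokens that the curve may use inside the root face `T0`. -/
def Ins (F : Finset (Finset V)) (T0 Hb : Finset V) (C : Finset (Finset V)) : Set (Finset V) :=
  {x | x ∈ Cx F ∧ ¬ x ⊆ T0 ∧ (x.card = 1 → Disjoint x Hb) ∧
    (x.card = 3 → ¬ Disjoint x Hb ∨ x ∈ C)}

/-- The hubs `Hb` and the cut triangles `C` are admissible. -/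
structure Cfg (G : SimpleGraph V) (D : Finset V) (F : Finset (Finset V)) (T0 Hb : Finset V)
    (C : Finset (Finset V)) : Prop where
  tri : Tri G D F
  root : T0 ∈ F
  nd : ∀ T, T3 G D T → ¬ T ⊆ Hb
  cT : ∀ T ∈ C, T3 G D T ∧ T ≠ T0
  hit : ∀ T, T3 G D T → Disjoint T Hb → T ∈ F ∨ T ∈ C
  uni : ∀ T1 ∈ C, ∀ T2 ∈ C, T1 ≠ T2 → Disjoint T1 Hb → Disjoint T2 Hb →
    ∃ T ∈ C, ¬ (Lt (Inn G D T0) T1 T ↔ Lt (Inn G D T0) T2 T)
  exc : ∀ T ∈ C, (T ∩ Hb).card = 1 → ∀ T1 ∈ C, Disjoint T1 Hb → Lt (Inn G D T0) T1 T →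
    T \ Hb ⊆ T1 → ∃ T' ∈ C, Lt (Inn G D T0) T1 T' ∧ Lt (Inn G D T0) T' T

/-- The two ends of the path inside the root face are admissible. -/
structure Ends (G : SimpleGraph V) (D T0 Hb : Finset V) (C : Finset (Finset V))
    (A B : Finset V) : Prop where
  hA : St Hb A T0
  hB : St Hb B T0
  ne : A ≠ B
  exc : A.card = 2 → B.card = 2 → (T0 ∩ Hb).card = 1 → ∀ T1 ∈ C, Disjoint T1 Hb → T0 \ Hb ⊆ T1 →
    ∃ T' ∈ C, Lt (Inn G D T0) T1 T'

/-- A path from `A` to `B` that visits all vertices and faces among the inner tokens. -/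
def SV (F : Finset (Finset V)) (T0 Hb : Finset V) (C : Finset (Finset V)) (A B : Finset V) : Prop :=
  ∃ P, HP (Tk Hb) P A B ∧ P ⊆ Ins F T0 Hb C ∪ {A, B} ∧ ∀ x ∈ Ins F T0 Hb C, x.card ≠ 2 → x ∈ P

/-- The vertices that are not hubs and the faces with a hub. -/
def Mn (D : Finset V) (F : Finset (Finset V)) (Hb : Finset V) : Set (Finset V) :=
  {x | (∃ v ∈ D, v ∉ Hb ∧ x = {v}) ∨ (x ∈ F ∧ ¬ Disjoint x Hb)}

/-- Adjacency of such tokens, with the edge tokens suppressed. -/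
def Xa (G : SimpleGraph V) (Hb x y : Finset V) : Prop :=
  (∃ u v, G.Adj u v ∧ x = {u} ∧ y = {v}) ∨ x ⊂ y ∨ y ⊂ x ∨
    ((x ∩ y).card = 2 ∧ ¬ Disjoint (x ∩ y) Hb)

/-- The curve: together with the root face it is a cycle of the barycentric subdivision. -/
structure Cur (D : Finset V) (F : Finset (Finset V)) (T0 Hb : Finset V) (q : ℕ → Finset V)
    (m : ℕ) : Prop where
  pa : Pa (Tk Hb) q m
  one : 1 ≤ m
  mem : ∀ i ≤ m, q i ∈ Cx F ∧ q i ≠ T0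
  e0 : St Hb (q 0) T0
  em : St Hb (q m) T0
  vS : ∀ v ∈ D, v ∉ Hb → ∃ i ≤ m, q i = {v}
  vF : ∀ f ∈ F, f ≠ T0 → ¬ Disjoint f Hb → ∃ i ≤ m, q i = f

/-! ### The choice of the hubs -/

/-- A laminar family `𝒮` of triangles with three different colours; `I T` is the inside of `T`. -/
structure Lam (c : V → K4) (𝒮 : Finset (Finset V)) (I : Finset V → Finset V) (T0 : Finset V) :
    Prop where
  root : T0 ∈ 𝒮
  card : ∀ T ∈ 𝒮, T.card = 3
  col : ∀ T ∈ 𝒮, ∀ u ∈ T, ∀ v ∈ T, c u = c v → u = v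
  ne : ∀ T ∈ 𝒮, (I T).Nonempty
  dis : ∀ T ∈ 𝒮, Disjoint T (I T)
  top : ∀ T ∈ 𝒮, T ≠ T0 → Lt I T T0
  sub : ∀ T ∈ 𝒮, ∀ T' ∈ 𝒮, Lt I T T' → T ⊆ T' ∪ I T' ∧ I T ⊆ I T'
  lam : ∀ T ∈ 𝒮, ∀ T' ∈ 𝒮, T ≠ T' → Disjoint (I T) (I T') ∨ Lt I T T' ∨ Lt I T' T
  edge : ∀ T ∈ 𝒮, ∀ T1 ∈ 𝒮, ∀ T2 ∈ 𝒮, Lt I T1 T → Lt I T2 T → 2 ≤ (T ∩ T1 ∩ T2).card →
    T1 = T2 ∨ Lt I T1 T2 ∨ Lt I T2 T1

/-- `J` is reached from the head `T` through designated triangles on one edge of `T`. -/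
def Rr (𝒮 Hd : Finset (Finset V)) (I : Finset V → Finset V) (J T : Finset V) : Prop :=
  J ∈ 𝒮 ∧ T ∈ Hd ∧ J ∉ Hd ∧ Lt I J T ∧ (J ∩ T).card = 2 ∧
    ∀ T' ∈ 𝒮, Lt I J T' → Lt I T' T → T' ∉ Hd

open Classical in
/-- The heads `Hd` (the triangles that are not designated) and the count of the costs. -/
structure Des [Fintype V] (𝒮 Hd : Finset (Finset V)) (I : Finset V → Finset V) (T0 : Finset V) :
    Prop where
  sub : Hd ⊆ 𝒮
  root : T0 ∉ Hd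
  sep : ∀ T1 ∈ 𝒮, ∀ T2 ∈ 𝒮, T1 ∉ Hd → T2 ∉ Hd → T1 ≠ T2 → ¬ Lt I T1 T2 → ¬ Lt I T2 T1 →
    ∃ J ∈ Hd, ¬ (Lt I T1 J ↔ Lt I T2 J)
  count : 15 * (Hd.biUnion id).card + 9 * Hd.card +
    6 * (Hd.filter fun T => ∃ J, Rr 𝒮 Hd I J T).card +
    ∑ x ∈ (𝒮 ×ˢ Hd).filter (fun x => Rr 𝒮 Hd I x.1 x.2),
      (if x.1 \ x.2 ⊆ Hd.biUnion id then 3 else 8) ≤ 15 * Fintype.card V

/-- The hubs and the cut triangles. -/
structure Sel [Fintype V] (c : V → K4) (𝒮 : Finset (Finset V)) (I : Finset V → Finset V)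
    (T0 Hb : Finset V) (C : Finset (Finset V)) : Prop where
  small : 16 * Hb.card ≤ 5 * Fintype.card V
  col : ∃ a b, ∀ v ∈ Hb, c v = a ∨ c v = b
  sub : ∀ T ∈ C, T ∈ 𝒮 ∧ T ≠ T0
  hit : ∀ T ∈ 𝒮, T ≠ T0 → Disjoint T Hb → T ∈ C
  uni : ∀ T1 ∈ C, ∀ T2 ∈ C, T1 ≠ T2 → Disjoint T1 Hb → Disjoint T2 Hb →
    ∃ T ∈ C, ¬ (Lt I T1 T ↔ Lt I T2 T)
  exc : ∀ T ∈ C, (T ∩ Hb).card = 1 → ∀ T1 ∈ C, Disjoint T1 Hb → Lt I T1 T → T \ Hb ⊆ T1 →
    ∃ T' ∈ C, Lt I T1 T' ∧ Lt I T' T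

end Defs

/-! ### Realisation -/

section Real

variable {O V : Type}

/-- Objects above and below a line with attachments among the points `1, …, N - 1` of the line;
`tie z = some (h, p)` asks that `h`, the point `p` and `z` are collinear. -/
structure Wk (N : ℕ) (sd : O → Bool) (At : O → Finset ℕ) (tie : O → Option (O × ℕ)) : Prop where
  rng : ∀ o, ∀ a ∈ At o, 0 < a ∧ a < N
  two : ∀ o, 2 ≤ (At o).card
  nc : ∀ o o', o ≠ o' → sd o = sd o' → ∀ a ∈ At o, ∀ c ∈ At o, ∀ b ∈ At o', ∀ d ∈ At o',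
    a < b → b < c → c < d → False
  n3 : ∀ o o', o ≠ o' → sd o = sd o' → (At o ∩ At o').card ≤ 2
  tie : ∀ z h p, tie z = some (h, p) → sd h ≠ sd z ∧ p ∈ At z ∧ p ∈ At h ∧ tie h = none ∧
    ∀ o, p ∈ At o → o = z ∨ o = h

/-- The attachments together with the two ends of the wedge. -/
def Ext (At : O → Finset ℕ) (L R : O → ℕ) (o : O) (a : ℕ) : Prop := a ∈ At o ∨ a = L o ∨ a = R o

/-- The objects are inserted in the order `rk`; each one lies in a gap `[L o, R o]` between the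
points used before, and this gap is a sector of its parent. -/
structure Fo (N : ℕ) (sd : O → Bool) (At : O → Finset ℕ) (rk L R : O → ℕ) (par : O → Option O) :
    Prop where
  inj : Function.Injective rk
  lr : ∀ o, L o < R o ∧ R o ≤ N
  mem : ∀ o, ∀ a ∈ At o, L o ≤ a ∧ a ≤ R o
  l : ∀ o, L o = 0 ∨ ∃ o', sd o' = sd o ∧ rk o' < rk o ∧ L o ∈ At o'
  r : ∀ o, R o = N ∨ ∃ o', sd o' = sd o ∧ rk o' < rk o ∧ R o ∈ At o'
  gap : ∀ o o', sd o' = sd o → rk o' < rk o → ∀ a, Ext At L R o' a → a ≤ L o ∨ R o ≤ a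
  none : ∀ o, par o = none → L o = 0 ∧ R o = N ∧ ∀ o', sd o' = sd o → rk o ≤ rk o'
  some : ∀ o z, par o = some z → sd z = sd o ∧ rk z < rk o ∧ Ext At L R z (L o) ∧
    Ext At L R z (R o) ∧ ∀ y, sd y = sd o → rk y < rk o → L y ≤ L o → R o ≤ R y → rk y ≤ rk z

/-- The value of an affine function. -/
def ev (ψ : ℝ × ℝ) (t : ℝ) : ℝ := ψ.1 + ψ.2 * t

/-- The sign of a side. -/
def sg (b : Bool) : ℝ := if b then 1 else -1

/-- Affine functions (inverse slopes of the lines through the objects) with the nesting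
inequalities and the collinearity equations. -/
structure Ps (X : ℕ → ℝ) (sd : O → Bool) (tie : O → Option (O × ℕ)) (L R : O → ℕ)
    (par : O → Option O) (ψ : O → ℝ × ℝ) : Prop where
  l : ∀ o, 0 < sg (sd o) * (ev (ψ o) (X (L o)) - ev ((par o).elim 0 ψ) (X (L o)))
  r : ∀ o, sg (sd o) * (ev (ψ o) (X (R o)) - ev ((par o).elim 0 ψ) (X (R o))) < 0
  tie : ∀ z h p, tie z = some (h, p) → ev (ψ z) (X p) = ev (ψ h) (X p)

/-- Positions of the objects with straight segments to their attachments, without crossings. -/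
structure Rl (X : ℕ → ℝ) (sd : O → Bool) (At : O → Finset ℕ) (tie : O → Option (O × ℕ))
    (pos : O → ℝ × ℝ) : Prop where
  side : ∀ o, 0 < sg (sd o) * (pos o).2
  nc : ∀ o o', o ≠ o' → ∀ a ∈ At o, ∀ b ∈ At o', ∀ u ∈ segment ℝ (pos o) (X a, 0),
    u ∈ segment ℝ (pos o') (X b, 0) → a = b ∧ u = (X a, 0)
  tie : ∀ z h p, tie z = some (h, p) → (X p, (0 : ℝ)) ∈ segment ℝ (pos h) (pos z)

/-- The edge from the hub `h` to the vertex `x` on the line is straight or crosses the line. -/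
def HS (ix : V → ℕ) (tie : O → Option (O × ℕ)) (hub : V → O) (Sg : Sym2 V → Set (O × ℕ))
    (h x : V) : Prop :=
  Sg s(h, x) = {(hub h, ix x)} ∨
    ∃ z p, tie z = some (hub h, p) ∧ p ≠ ix x ∧ Sg s(h, x) = {(hub h, p), (z, p), (z, ix x)}

/-- A layout of the graph: the vertices outside `Hb` are points of the line, the hubs are objects,
and every edge is a union of segments from objects to points. -/
structure Lay (G : SimpleGraph V) (Hb : Finset V) (N : ℕ) (ix : V → ℕ) (sd : O → Bool)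
    (At : O → Finset ℕ) (tie : O → Option (O × ℕ)) (hub : V → O) (Sg : Sym2 V → Set (O × ℕ)) :
    Prop where
  wk : Wk N sd At tie
  ixr : ∀ v ∉ Hb, ix v ≤ N
  ixi : ∀ v ∉ Hb, ∀ w ∉ Hb, ix v = ix w → v = w
  hubi : ∀ v ∈ Hb, ∀ w ∈ Hb, hub v = hub w → v = w
  mem : ∀ e ∈ G.edgeSet, ∀ x ∈ Sg e, x.2 ∈ At x.1
  shape : ∀ u v, G.Adj u v →
    (u ∉ Hb ∧ v ∉ Hb ∧ ∃ z, Sg s(u, v) = {(z, ix u), (z, ix v)}) ∨
    (u ∈ Hb ∧ v ∉ Hb ∧ HS ix tie hub Sg u v) ∨ (v ∈ Hb ∧ u ∉ Hb ∧ HS ix tie hub Sg v u) ∨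
    (u ∈ Hb ∧ v ∈ Hb ∧ ∃ p, Sg s(u, v) = {(hub u, p), (hub v, p)})
  ex : ∀ e ∈ G.edgeSet, ∀ e' ∈ G.edgeSet, e ≠ e' → ∀ x ∈ Sg e, ∀ y ∈ Sg e',
    (x.1 = y.1 → x.2 ≠ y.2 ∧ ∃ w ∈ Hb, w ∈ e ∧ w ∈ e' ∧ x.1 = hub w) ∧
    (x.2 = y.2 → ∃ w ∉ Hb, w ∈ e ∧ w ∈ e' ∧ x.2 = ix w)
  vx : ∀ e ∈ G.edgeSet, ∀ x ∈ Sg e, (∀ w ∉ Hb, x.2 = ix w → w ∈ e) ∧
    (∀ w ∈ Hb, x.1 = hub w → w ∈ e)

end Real

/-! ### Statements: triangulations -/

def StmtTRI : Prop :=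
  ∀ (V : Type) [Fintype V] [DecidableEq V] (G : SimpleGraph V) (D : Finset V), Mac G →
    4 ≤ D.card → ∃ H F, GD G D ≤ H ∧ Tri H D F

structure StmtTB : Prop where
  mac : ∀ (V : Type) [Fintype V] [DecidableEq V] (G : SimpleGraph V) D F, Tri G D F → Mac (GD G D)
  prim : ∀ (V : Type) [Fintype V] [DecidableEq V] (G : SimpleGraph V) D F, Tri G D F →
    ∀ C : Sym2 V → Z2, (∀ e, C e ≠ 0 → e ∈ (GD G D).edgeSet) → (∀ v, ∑ w, C s(v, w) = 0) →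
    ∃ σ : Finset V → Z2, ∀ u v, u ≠ v → ∀ f ∈ F, ∀ f' ∈ F, f ≠ f' → u ∈ f → v ∈ f → u ∈ f' →
      v ∈ f' → C s(u, v) = σ f + σ f'
  dc : ∀ (V : Type) [Fintype V] [DecidableEq V] (G : SimpleGraph V) D F, Tri G D F →
    ∀ X : Set (Finset V),
    (∀ f ∈ X, ∀ f' ∈ F, f ∈ F → (∃ u v, u ≠ v ∧ u ∈ f ∧ v ∈ f ∧ u ∈ f' ∧ v ∈ f') → f' ∈ X) →
    ∀ f ∈ F, ∀ f' ∈ F, f ∈ X → f' ∈ X
  deg : ∀ (V : Type) [Fintype V] [DecidableEq V] (G : SimpleGraph V) D F, Tri G D F →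
    ∀ v ∈ D, 3 ≤ (F.filter fun f => v ∈ f).card ∧
      ∃ a ∈ D, ∃ b ∈ D, ∃ c ∈ D, a ≠ b ∧ a ≠ c ∧ b ≠ c ∧ G.Adj v a ∧ G.Adj v b ∧ G.Adj v c
  tsep : ∀ (V : Type) [Fintype V] [DecidableEq V] (G : SimpleGraph V) D F, Tri G D F →
    ∀ u v w x y, T3 G D {u, v, w} → ({u, v, w} : Finset V) ∉ F → ({u, v, x} : Finset V) ∈ F →
    ({u, v, y} : Finset V) ∈ F → x ≠ y → ¬ Conn G ((D : Set V) \ {u, v, w}) x y
  sep : ∀ (V : Type) [Fintype V] [DecidableEq V] (G : SimpleGraph V) D F, Tri G D F →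
    ∀ s z x y, ({s, x, y} : Finset V) ∈ F → ({z, x, y} : Finset V) ∈ F → G.Adj s z →
    ¬ Conn (G.deleteEdges {s(x, y)}) ((D : Set V) \ {s, z}) x y
  flip : ∀ (V : Type) [Fintype V] [DecidableEq V] (G : SimpleGraph V) D F, Tri G D F →
    ∀ s z x y, ({s, x, y} : Finset V) ∈ F → ({z, x, y} : Finset V) ∈ F → s ≠ z → ¬ G.Adj s z →
    Mac ((GD G D).deleteEdges {s(x, y)} ⊔ SimpleGraph.edge s z)

/-- The link of `s` is a cycle; it is listed from `x` to `y`, the long way round. -/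
def StmtLINK : Prop :=
  ∀ (V : Type) [Fintype V] [DecidableEq V] (G : SimpleGraph V) D F, Tri G D F →
    ∀ s x y, ({s, x, y} : Finset V) ∈ F → ∃ (l : ℕ → V) (d : ℕ), 2 ≤ d ∧ l 0 = x ∧ l d = y ∧
      (∀ i ≤ d, ∀ j ≤ d, l i = l j → i = j) ∧ (∀ i < d, ({s, l i, l (i + 1)} : Finset V) ∈ F) ∧
      ∀ w ∈ D, G.Adj s w → ∃ i ≤ d, l i = w

structure StmtSPLIT : Prop where
  face : ∀ (V : Type) [Fintype V] [DecidableEq V] (G : SimpleGraph V) D F T0 T, Tri G D F →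
    T0 ∈ F → T3 G D T → T ≠ T0 → (T ∈ F ↔ Inn G D T0 T = ∅)
  inn : ∀ (V : Type) [Fintype V] [DecidableEq V] (G : SimpleGraph V) D F T0 T, Tri G D F →
    T0 ∈ F → T3 G D T → T ∉ F →
    Tri G (T ∪ Inn G D T0 T) (insert T (F.filter fun f => ¬ Disjoint f (Inn G D T0 T)))
  out : ∀ (V : Type) [Fintype V] [DecidableEq V] (G : SimpleGraph V) D F T0 T, Tri G D F →
    T0 ∈ F → T3 G D T → T ∉ F →
    Tri G (D \ Inn G D T0 T) (insert T (F.filter fun f => Disjoint f (Inn G D T0 T)))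

structure StmtLAM : Prop where
  sub : ∀ (V : Type) [Fintype V] [DecidableEq V] (G : SimpleGraph V) D F T0 T T', Tri G D F →
    T0 ∈ F → T3 G D T → T3 G D T' → Lt (Inn G D T0) T T' →
    T ⊆ T' ∪ Inn G D T0 T' ∧ Inn G D T0 T ⊆ Inn G D T0 T'
  lam : ∀ (V : Type) [Fintype V] [DecidableEq V] (G : SimpleGraph V) D F T0 T T', Tri G D F →
    T0 ∈ F → T3 G D T → T3 G D T' → T ≠ T' →
    Disjoint (Inn G D T0 T) (Inn G D T0 T') ∨ Lt (Inn G D T0) T T' ∨ Lt (Inn G D T0) T' T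
  edge : ∀ (V : Type) [Fintype V] [DecidableEq V] (G : SimpleGraph V) D F T0 T T1 T2, Tri G D F →
    T0 ∈ F → T3 G D T → T3 G D T1 → T3 G D T2 → Lt (Inn G D T0) T1 T → Lt (Inn G D T0) T2 T →
    2 ≤ (T ∩ T1 ∩ T2).card → T1 = T2 ∨ Lt (Inn G D T0) T1 T2 ∨ Lt (Inn G D T0) T2 T1
  cin : ∀ (V : Type) [Fintype V] [DecidableEq V] (G : SimpleGraph V) D F T0 T T', Tri G D F →
    T0 ∈ F → T3 G D T → T3 G D T' → Lt (Inn G D T0) T' T →
    Inn G (T ∪ Inn G D T0 T) T T' = Inn G D T0 T'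
  cout : ∀ (V : Type) [Fintype V] [DecidableEq V] (G : SimpleGraph V) D F T0 T T', Tri G D F →
    T0 ∈ F → T3 G D T → T ≠ T0 → T3 G D T' → ¬ Lt (Inn G D T0) T' T →
    Inn G (D \ Inn G D T0 T) T0 T' = Inn G D T0 T' \ Inn G D T0 T

def StmtY : Prop :=
  ∀ (V : Type) [Fintype V] [DecidableEq V] (G : SimpleGraph V) D F, Tri G D F →
    Tri (Yg F) (Cx F) (Fl F)

def StmtSIDES : Prop :=
  StmtTB → ∀ (V : Type) [Fintype V] [DecidableEq V] (G : SimpleGraph V) D F q m t, Tri G D F →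
    Pa G q m → 1 ≤ m → (∀ i ≤ m, q i ∈ D ∧ q i ≠ t) → t ∈ D → G.Adj t (q 0) → G.Adj t (q m) →
    ∃ σ, Sides G F q m t σ

/-! ### Statements: the path theorem -/

def StmtSETF : Prop :=
  ∀ (V : Type) [Fintype V] [DecidableEq V] (U : Set V) (A B t : V),
    (∀ (G : SimpleGraph V) (s0 s1 s2 : V), Fr G U A B {s0} {s1} {s2} →
      Mode G U A B {s0} {s1} {s2} t → Good G U A B {s0} {s1} {s2} t) →
    ∀ (G : SimpleGraph V) (Z0 Z1 Z2 : Set V), Fr G U A B Z0 Z1 Z2 → Mode G U A B Z0 Z1 Z2 t →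
      Good G U A B Z0 Z1 Z2 t

def StmtRED : Prop :=
  ∀ (V : Type) [Fintype V] [DecidableEq V] (G : SimpleGraph V) (U : Set V) (A B s0 s1 s2 t : V),
    TP V U.ncard → Fr G U A B {s0} {s1} {s2} → Mode G U A B {s0} {s1} {s2} t → ¬ NH G U A B →
    Good G U A B {s0} {s1} {s2} t

def StmtBE : Prop :=
  ∀ (V : Type) [Fintype V] [DecidableEq V] (G : SimpleGraph V) (U : Set V) (A B s0 s1 s2 : V),
    Fr G U A B {s0} {s1} {s2} → NH G U A B → ∃ (G' : SimpleGraph V) (q : ℕ → V) (m j : ℕ),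
      Fr G' U A B {s0} {s1} {s2} ∧ Bd G' U A B s1 s2 q m j ∧
      (∀ u ∈ U, ∀ v ∈ U, G'.Adj u v ↔ G.Adj u v) ∧ (∀ u ∈ U, G'.Adj s0 u ↔ G.Adj s0 u) ∧
      (∀ u ∈ U, G.Adj s1 u → G'.Adj s1 u) ∧ ∀ u ∈ U, G.Adj s2 u → G'.Adj s2 u

def StmtAL : Prop :=
  ∀ (V : Type) [Fintype V] [DecidableEq V] (G : SimpleGraph V) (W : Set V) q m o r S t n,
    TP V n → W.ncard < n → AH G W q m o r S t → ∃ P ⊆ W, HP G P (q 0) (q m) ∧ ∀ v ∈ W \ P,
      (At G (W \ P) P v).ncard + tc G (W \ P) S v + (At G (W \ P) (o '' Iic r) v).ncard ≤ 3 ∧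
      (v = t →
        (At G (W \ P) P v).ncard + tc G (W \ P) S v + (At G (W \ P) (o '' Iic r) v).ncard ≤ 2)

def StmtCT : Prop :=
  StmtAL → ∀ (V : Type) [Fintype V] [DecidableEq V] (G : SimpleGraph V) (U : Set V)
    (A B s0 s1 s2 t : V) q m j, TP V U.ncard → Fr G U A B {s0} {s1} {s2} → NH G U A B →
    Bd G U A B s1 s2 q m j →
    (t ∉ U ∨ (s1 = s2 ∧ (t ∈ q '' Iic m ∨ At G (U \ q '' Iic m) {s0} t = ∅)) ∨
      ∀ u ∈ U, G.Adj s0 u → u = A ∨ u = B) →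
    Good G U A B {s0} {s1} {s2} t

def StmtZ : Prop :=
  StmtAL → ∀ (V : Type) [Fintype V] [DecidableEq V] (G : SimpleGraph V) (U : Set V)
    (A B s0 s1 t : V) p k i q m j, TP V U.ncard → Fr G U A B {s0} {s1} {s1} →
    Bd G U A B s0 s0 p k i → Bd G U A B s1 s1 q m j → t ∈ U → t ∉ p '' Iic k → t ∉ q '' Iic m →
    (At G (U \ q '' Iic m) {s0} t).Nonempty → (At G (U \ p '' Iic k) {s1} t).Nonempty →
    Good G U A B {s0} {s1} {s1} t

/-- The path theorem. -/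
def TPall : Prop := ∀ (V : Type) [Fintype V] [DecidableEq V] (n : ℕ), TP V n

def StmtTOP : Prop := StmtSETF → StmtRED → StmtBE → StmtAL → StmtCT → StmtZ → TPall

/-! ### Statements: the curve -/

/-- The corners are taken from a hexagon around `t0`; at most two vertices of it count. -/
def StmtHEX : Prop :=
  TPall → ∀ (V : Type) [Fintype V] [DecidableEq V] (G : SimpleGraph V) (U : Set V) (t0 t : V)
    (h : ZMod 6 → V) (a b : ZMod 6) (X : Finset (ZMod 6)), Mac G → Function.Injective h →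
    (∀ i, G.Adj t0 (h i)) → (∀ i, (i = a ∧ i + 1 = b) ∨ (i = b ∧ i + 1 = a) ∨
      G.Adj (h i) (h (i + 1))) → a ≠ b → t0 ∉ U → (∀ i, h i ∈ U ↔ i = a ∨ i = b) →
    (∀ u ∈ U, G.Adj t0 u → u = h a ∨ u = h b) → Conn G U (h a) (h b) → X.card ≤ 2 → a ∉ X →
    b ∉ X → ∃ P ⊆ U, HP G P (h a) (h b) ∧ ∀ v ∈ U \ P,
      (At G (U \ P) P v).ncard + (At G (U \ P) (h '' X) v).ncard ≤ 3 ∧
      (v = t → (At G (U \ P) P v).ncard + (At G (U \ P) (h '' X) v).ncard ≤ 2 ∨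
        (At G (U \ P) P v).ncard ≤ 1)

def StmtCON : Prop :=
  StmtTB → ∀ (V : Type) [Fintype V] [DecidableEq V] (G : SimpleGraph V) D F (Hb : Finset V)
    (K N : Set (Finset V)), Tri G D F → (∀ T, T3 G D T → ¬ T ⊆ Hb) →
    (∀ T, T3 G D T → Disjoint T Hb → T ∈ F) → K ⊆ Mn D F Hb → K.Nonempty → N.ncard ≤ 3 →
    Disjoint K N → (∀ x ∈ K, ∀ y ∈ Mn D F Hb, Xa G Hb x y → y ∈ K ∪ N) → Mn D F Hb ⊆ K ∪ N

/-- The service theorem when no cut triangle is separating. -/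
def SVbase : Prop :=
  ∀ (V : Type) [Fintype V] [DecidableEq V] (G : SimpleGraph V) D F T0 Hb C A B,
    Cfg G D F T0 Hb C → Ends G D T0 Hb C A B → (∀ T ∈ C, T ∈ F) → SV F T0 Hb C A B

def StmtBASE : Prop := TPall → StmtTB → StmtSPLIT → StmtY → StmtHEX → StmtCON → SVbase

/-- The service theorem. -/
def SVall : Prop :=
  ∀ (V : Type) [Fintype V] [DecidableEq V] (G : SimpleGraph V) D F T0 Hb C A B,
    Cfg G D F T0 Hb C → Ends G D T0 Hb C A B → SV F T0 Hb C A B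

def StmtASM : Prop := StmtSPLIT → StmtLAM → SVbase → SVall

def StmtROOT : Prop :=
  SVall → ∀ (V : Type) [Fintype V] [DecidableEq V] (G : SimpleGraph V) D F T0 Hb C,
    Cfg G D F T0 Hb C → ∃ q m, Cur D F T0 Hb q m

/-! ### Statements: the choice of the hubs -/

def StmtSEL1 : Prop :=
  ∀ (V : Type) [Fintype V] [DecidableEq V] (c : V → K4) 𝒮 I T0, Lam c 𝒮 I T0 →
    ∃ Hd, Des 𝒮 Hd I T0

def StmtSEL2 : Prop :=
  ∀ (V : Type) [Fintype V] [DecidableEq V] (c : V → K4) 𝒮 Hd I T0, Lam c 𝒮 I T0 →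
    Des 𝒮 Hd I T0 → ∃ Hb C, Sel c 𝒮 I T0 Hb C

/-! ### Statements: realisation -/

def StmtOBJ : Prop :=
  StmtTB → StmtY → StmtSIDES → ∀ (V : Type) [Fintype V] [DecidableEq V] (G : SimpleGraph V) F T0
    (Hb : Finset V) q m, Tri G Finset.univ F → T0 ∈ F → (∀ f ∈ F, ¬ f ⊆ Hb) →
    Cur Finset.univ F T0 Hb q m →
    ∃ (O : Type) (_ : Fintype O) (N : ℕ) (ix : V → ℕ) (sd : O → Bool) (At : O → Finset ℕ)
      (tie : O → Option (O × ℕ)) (hub : V → O) (Sg : Sym2 V → Set (O × ℕ)),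
      Lay G Hb N ix sd At tie hub Sg

def StmtFO : Prop :=
  ∀ (O : Type) [Fintype O] N (sd : O → Bool) At tie, Wk N sd At tie →
    ∃ rk L R par, Fo N sd At rk L R par

def StmtGOR : Prop :=
  ∀ (O : Type) [Fintype O] N (sd : O → Bool) At tie rk L R par (X : ℕ → ℝ), Wk N sd At tie →
    Fo N sd At rk L R par → StrictMono X → ∃ ψ, Ps X sd tie L R par ψ

def StmtGEO : Prop :=
  ∀ (O : Type) [Fintype O] N (sd : O → Bool) At tie rk L R par (X : ℕ → ℝ) ψ, Wk N sd At tie →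
    Fo N sd At rk L R par → StrictMono X → Ps X sd tie L R par ψ → ∃ pos, Rl X sd At tie pos

def StmtDRAW : Prop :=
  StmtFO → StmtGOR → StmtGEO → ∀ (V O : Type) [Fintype V] [DecidableEq V] [Fintype O]
    (G : SimpleGraph V) (Hb : Finset V) N ix (sd : O → Bool) At tie hub Sg,
    Lay G Hb N ix sd At tie hub Sg → ∃ v : Fin (Fintype.card V - Hb.card) → V,
      Function.Injective v ∧ ∀ x : Fin (Fintype.card V - Hb.card) → ℝ, StrictMono x →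
        ∃ pos, OneBend G pos ∧ ∀ i, pos (v i) = (x i, 0)

def StmtPERT : Prop :=
  ∀ (V : Type) [Fintype V] (G : SimpleGraph V) (s : ℕ) (v : Fin s → V), Function.Injective v →
    (∀ x : Fin s → ℝ, StrictMono x → ∃ pos, OneBend G pos ∧ ∀ i, pos (v i) = (x i, 0)) →
    IsFree G v

end Pool.Agent.MP_856573_co.H74
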